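import Pool.Agent.Helper27.EM.Sheet

/-!
Project EM (MP_9b3484_nt), row BAS.
-/

set_option autoImplicit false

open Filter Finset

namespace Pool.Agent.Helper66.EM

open Pool.Agent.Helper27.EM

lemma lv_pos (n : ℕ) : 0 < Real.log (((n : ℝ) + 2) / (n + 1)) := by
  apply Real.log_pos
  have h : (0 : ℝ) < n + 1 := by positivity
  rw [lt_div_iff₀ h]
  linarith

lemma lu_le (n : ℕ) (hn : 1 ≤ n) :
    Real.log (((n : ℝ) + 2) / (n + 1)) ≤ Real.log (((n : ℝ) + 1) / n) := by
  have hn' : (1 : ℝ) ≤ n := by exact_mod_cast hn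
  apply Real.log_le_log (by positivity)
  rw [div_le_div_iff₀ (by positivity) (by positivity)]
  nlinarith

lemma lu_lt (n : ℕ) (hn : 2 ≤ n) :
    Real.log (((n : ℝ) + 1) / n) < 2 * Real.log (((n : ℝ) + 2) / (n + 1)) := by
  have hn' : (2 : ℝ) ≤ n := by exact_mod_cast hn
  have h2 : 2 * Real.log (((n : ℝ) + 2) / (n + 1)) = Real.log ((((n : ℝ) + 2) / (n + 1)) ^ 2) := by
    rw [Real.log_pow]; norm_num
  rw [h2]
  apply Real.log_lt_log (by positivity)
  rw [div_pow, div_lt_div_iff₀ (by positivity) (by positivity)]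
  nlinarith [sq_nonneg ((n : ℝ) + 1), sq_nonneg (n : ℝ)]

lemma al_ge (n : ℕ) (hn : 1 ≤ n) : 1 ≤ al n := by
  unfold al
  rw [le_div_iff₀ (lv_pos n), one_mul]
  exact lu_le n hn

lemma al_lt (n : ℕ) (hn : 2 ≤ n) : al n < 2 := by
  unfold al
  rw [div_lt_iff₀ (lv_pos n)]
  exact lu_lt n hn

lemma al_mul (n : ℕ) : al n * Real.log (((n : ℝ) + 2) / (n + 1)) =
    Real.log (((n : ℝ) + 1) / n) := by
  unfold al
  rw [div_mul_cancel₀ _ (lv_pos n).ne']

lemma Y_le (n x : ℕ) (hn : 1 ≤ n) : (Y n x : ℝ) ≤ x * al n := by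
  apply Nat.floor_le
  have := al_ge n hn
  positivity

lemma lt_Y (n x : ℕ) : (x : ℝ) * al n < Y n x + 1 := Nat.lt_floor_add_one _

lemma rr_pos (n x : ℕ) (hn : 1 ≤ n) : 0 < rr n x := by
  unfold rr nm dn
  have hn' : (0 : ℝ) < n := by exact_mod_cast hn
  push_cast
  positivity

lemma log_rr (n x : ℕ) (hn : 1 ≤ n) :
    Real.log (rr n x) = x * Real.log (((n : ℝ) + 1) / n) -
      Y n x * Real.log (((n : ℝ) + 2) / (n + 1)) := by
  have hn' : (0 : ℝ) < n := by exact_mod_cast hn
  have h1 : (0 : ℝ) < (n : ℝ) + 1 := by positivity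
  have h2 : (0 : ℝ) < (n : ℝ) + 2 := by positivity
  unfold rr nm dn
  push_cast
  rw [Real.log_div (by positivity) (by positivity), Real.log_pow, Real.log_mul (by positivity)
    (by positivity), Real.log_pow, Real.log_pow, Real.log_div h1.ne' hn'.ne',
    Real.log_div h2.ne' h1.ne']
  push_cast
  ring

lemma Y_le_two (n x : ℕ) (hn : 2 ≤ n) : Y n x ≤ 2 * x := by
  have h1 := Y_le n x (by omega)
  have h2 := al_lt n hn
  have h3 : (Y n x : ℝ) ≤ 2 * x := by
    have : (x : ℝ) * al n ≤ x * 2 := mul_le_mul_of_nonneg_left h2.le (Nat.cast_nonneg _)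
    linarith
  exact_mod_cast h3

lemma Y_mono (n x x' : ℕ) (hn : 1 ≤ n) (h : x ≤ x') : Y n x ≤ Y n x' := by
  unfold Y
  apply Nat.floor_le_floor
  have h1 : (x : ℝ) ≤ x' := by exact_mod_cast h
  have := al_ge n hn
  exact mul_le_mul_of_nonneg_right h1 (by linarith)

lemma Y_add (n x x' : ℕ) (hn : 2 ≤ n) (h : x ≤ x') : Y n x' ≤ Y n x + 2 * (x' - x) := by
  obtain ⟨k, rfl⟩ := Nat.exists_eq_add_of_le h
  rw [Nat.add_sub_cancel_left]
  have h1 := Y_le n (x + k) (by omega)
  have h2 := lt_Y n x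
  have h3 := al_lt n hn
  have h4 : (k : ℝ) * al n ≤ k * 2 := mul_le_mul_of_nonneg_left h3.le (Nat.cast_nonneg _)
  have h5 : (Y n (x + k) : ℝ) < Y n x + 2 * k + 1 := by
    push_cast at h1
    nlinarith
  have h6 : Y n (x + k) < Y n x + 2 * k + 1 := by exact_mod_cast h5
  omega

theorem BAS : ST_BAS := by
  intro n hn
  have hn1 : 1 ≤ n := by omega
  have hn' : (0 : ℝ) < n := by exact_mod_cast hn1
  refine ⟨?_, ?_, fun x => log_rr n x hn1, ?_, ?_, ?_⟩
  · intro x
    have hlog := log_rr n x hn1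
    have hY1 := Y_le n x hn1
    have hY2 := lt_Y n x
    have hv := lv_pos n
    have hal := al_mul n
    have e : (x : ℝ) * Real.log (((n : ℝ) + 1) / n) =
        x * al n * Real.log (((n : ℝ) + 2) / (n + 1)) := by rw [mul_assoc, hal]
    constructor
    · have h0 : 0 ≤ Real.log (rr n x) := by
        rw [hlog, e, ← sub_mul]
        exact mul_nonneg (by linarith) hv.le
      by_contra hc
      push Not at hc
      have := Real.log_neg (rr_pos n x hn1) hc
      linarith
    · have h0 : Real.log (rr n x) < Real.log (((n : ℝ) + 2) / (n + 1)) := by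
        rw [hlog, e, ← sub_mul]
        have : (x * al n - Y n x) * Real.log (((n : ℝ) + 2) / (n + 1)) <
            1 * Real.log (((n : ℝ) + 2) / (n + 1)) :=
          mul_lt_mul_of_pos_right (by linarith) hv
        linarith
      exact (Real.log_lt_log_iff (rr_pos n x hn1) (by positivity)).1 h0
  · intro x x' h
    exact ⟨Y_mono n x x' hn1 h, (Y_add n x x' hn h).trans (Nat.le_succ _)⟩
  · intro x
    unfold nm dn
    apply Nat.Coprime.pow_left
    apply Nat.Coprime.mul_right
    · apply Nat.Coprime.pow_right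
      rw [Nat.coprime_comm]
      exact Nat.coprime_self_add_right.2 (Nat.coprime_one_right n)
    · apply Nat.Coprime.pow_right
      have : n + 2 = (n + 1) + 1 := by ring
      rw [this]
      exact Nat.coprime_self_add_right.2 (Nat.coprime_one_right (n + 1))
  · intro x
    have h2 : 1 ≤ (n + 2) ^ Y n x := Nat.one_le_pow _ _ (by omega)
    have h1 : 1 ≤ n ^ x := Nat.one_le_pow _ _ hn1
    refine ⟨?_, ?_, ?_⟩
    · unfold dn
      exact Nat.mul_pos h1 h2
    · unfold dn
      exact Nat.le_mul_of_pos_right _ h2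
    · unfold dn
      have h3 : n ^ x ≤ (n + 1) ^ x := Nat.pow_le_pow_left (by omega) x
      have h4 : (n + 2) ^ Y n x ≤ (n + 1) ^ (2 * Y n x) := by
        rw [pow_mul]
        apply Nat.pow_le_pow_left
        nlinarith
      calc n ^ x * (n + 2) ^ Y n x ≤ (n + 1) ^ x * (n + 1) ^ (2 * Y n x) := Nat.mul_le_mul h3 h4
        _ = (n + 1) ^ (x + 2 * Y n x) := by rw [pow_add]
        _ ≤ (n + 1) ^ (8 * x + 2) := by
          apply Nat.pow_le_pow_right (by omega)
          have := Y_le_two n x hn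
          omega
  · intro x x' h
    unfold dn
    have h1 : n * n ^ x ≤ n ^ x' := by
      rw [← pow_succ']
      exact Nat.pow_le_pow_right (by omega) h
    have h2 : (n + 2) ^ Y n x ≤ (n + 2) ^ Y n x' :=
      Nat.pow_le_pow_right (by omega) (Y_mono n x x' hn1 h.le)
    calc n * (n ^ x * (n + 2) ^ Y n x) = (n * n ^ x) * (n + 2) ^ Y n x := by ring
      _ ≤ n ^ x' * (n + 2) ^ Y n x' := Nat.mul_le_mul h1 h2

end Pool.Agent.Helper66.EM
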