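import Pool.Agent.Helper27.EM.Sheet
import Pool.Agent.Helper66.EM.BAS

/-!
Project EM (MP_9b3484_nt), row LIM.
-/

set_option autoImplicit false

open Filter Finset

namespace Pool.Agent.Helper66.EM

open Pool.Agent.Helper27.EM

/-- one step of the construction -/
lemma lim_step (hSTEP : ST_STEP) (n : ℕ) (hn : 10 ^ 6 ≤ n) : ∃ w : ℕ, 20 ≤ w ∧ ∀ x, 2 ≤ x →
    ∃ x', x < x' ∧ rr n x + 1 / (8 * (dn n x : ℝ) ^ 2) < rr n x' ∧
      rr n x' < rr n x + 1 / (4 * (dn n x : ℝ) ^ 2) ∧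
      ∀ (p : ℤ) (q : ℕ), dn n x ≤ q → q ^ (w + 1) ≤ dn n x' ^ 2 →
        2 / (q : ℝ) ^ w ≤ |rr n x' - p / q| := by
  obtain ⟨w, hw, hS⟩ := hSTEP n hn
  refine ⟨w, hw, fun x hx => ?_⟩
  obtain ⟨hB1, hB2, hB3, hB4, hB5, hB6⟩ := BAS n (by omega)
  have hR0 : 0 < dn n x := (hB5 x).1
  have hRn : n ^ 2 ≤ dn n x := (Nat.pow_le_pow_right (by omega) hx).trans (hB5 x).2.1
  have hbR : n + 1 ≤ dn n x := by nlinarith
  obtain ⟨h, hh⟩ : ∃ h, h = Nat.log (n + 1) (dn n x) := ⟨_, rfl⟩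
  have hh1 : 1 ≤ h := by
    rw [hh]; exact (Nat.le_log_iff_pow_le (by omega) hR0.ne').2 (by simpa using hbR)
  have hlo : (n + 1) ^ h ≤ dn n x := by
    rw [hh]; exact Nat.pow_log_le_self _ hR0.ne'
  have hhi : dn n x < (n + 1) ^ (h + 1) := by
    rw [hh]; exact Nat.lt_pow_succ_log_self (by omega) _
  have hRr : (0 : ℝ) < dn n x := by exact_mod_cast hR0
  have hsmall : 1 / ((n : ℝ) + 1) ^ (5 * h) ≤ 1 / (8 * (dn n x : ℝ) ^ 2) := by
    apply one_div_le_one_div_of_le (by positivity)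
    have h1 : 8 * dn n x ^ 2 ≤ (n + 1) ^ (5 * h) := by
      calc 8 * dn n x ^ 2 ≤ (n + 1) * ((n + 1) ^ (h + 1)) ^ 2 := by
            apply Nat.mul_le_mul (by omega)
            exact Nat.pow_le_pow_left hhi.le 2
        _ = (n + 1) ^ (2 * h + 3) := by ring
        _ ≤ (n + 1) ^ (5 * h) := Nat.pow_le_pow_right (by omega) (by omega)
    exact_mod_cast h1
  have hgap : rr n x + 1 / (4 * (dn n x : ℝ) ^ 2) ≤ ((n : ℝ) + 2) / (n + 1) := by
    have h1 := (hB1 x).2
    have hb : (0 : ℝ) < (n : ℝ) + 1 := by positivity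
    have h2 : (nm n x : ℝ) * (n + 1) < (n + 2) * dn n x := by
      unfold rr at h1
      rwa [div_lt_div_iff₀ hRr hb] at h1
    have h3 : nm n x * (n + 1) + 1 ≤ (n + 2) * dn n x := by
      have : nm n x * (n + 1) < (n + 2) * dn n x := by exact_mod_cast h2
      omega
    have h4 : (nm n x : ℝ) * (n + 1) + 1 ≤ (n + 2) * dn n x := by exact_mod_cast h3
    have h5 : rr n x + 1 / ((n + 1) * dn n x) ≤ ((n : ℝ) + 2) / (n + 1) := by
      unfold rr
      have e1 : (nm n x : ℝ) / dn n x + 1 / ((n + 1) * dn n x) =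
          (nm n x * (n + 1) + 1) / ((n + 1) * dn n x) := by
        field_simp
      have e2 : ((n : ℝ) + 2) / (n + 1) = ((n + 2) * dn n x) / ((n + 1) * dn n x) := by
        field_simp
      rw [e1, e2]
      exact div_le_div_of_nonneg_right h4 (by positivity)
    have h6 : 1 / (4 * (dn n x : ℝ) ^ 2) ≤ 1 / ((n + 1) * dn n x) := by
      apply one_div_le_one_div_of_le (by positivity)
      have : ((n : ℝ) + 1) ≤ dn n x := by exact_mod_cast hbR
      nlinarith
    linarith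
  have hs1 : (1 : ℝ) ≤ rr n x + 1 / (8 * (dn n x : ℝ) ^ 2) := by
    have := (hB1 x).1
    have h0 : (0 : ℝ) ≤ 1 / (8 * (dn n x : ℝ) ^ 2) := by positivity
    linarith
  have hquarter : 1 / (8 * (dn n x : ℝ) ^ 2) + 1 / (8 * (dn n x : ℝ) ^ 2) =
      1 / (4 * (dn n x : ℝ) ^ 2) := by
    field_simp; norm_num
  obtain ⟨x', hx', h1, h2, h3⟩ := hS h (x + 1) (rr n x + 1 / (8 * (dn n x : ℝ) ^ 2)) hh1 hs1
    (by linarith)
  refine ⟨x', hx', h1, by linarith, ?_⟩
  intro p q hq hq'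
  exact h3 p q (hlo.trans hq) hq'

theorem LIM (hSTEP : ST_STEP) : ST_LIM := by
  intro n hn
  obtain ⟨w, hw, hS⟩ := lim_step hSTEP n hn
  choose f hf1 hf2 hf3 hf4 using hS
  obtain ⟨hB1, hB2, hB3, hB4, hB5, hB6⟩ := BAS n (by omega)
  let g : ℕ → {x : ℕ // 2 ≤ x} := fun k =>
    Nat.rec ⟨2, le_rfl⟩ (fun _ y => ⟨f y.1 y.2, y.2.trans (hf1 y.1 y.2).le⟩) k
  have hg : ∀ k, (g (k + 1)).1 = f (g k).1 (g k).2 := fun k => rfl
  obtain ⟨x, hx⟩ : ∃ x : ℕ → ℕ, ∀ k, x k = (g k).1 := ⟨fun k => (g k).1, fun _ => rfl⟩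
  have hlt : ∀ k, x k < x (k + 1) := fun k => by rw [hx, hx, hg]; exact hf1 _ _
  have h2 : ∀ k, rr n (x k) + 1 / (8 * (dn n (x k) : ℝ) ^ 2) < rr n (x (k + 1)) := fun k => by
    rw [hx, hx, hg]; exact hf2 _ _
  have h3 : ∀ k, rr n (x (k + 1)) < rr n (x k) + 1 / (4 * (dn n (x k) : ℝ) ^ 2) := fun k => by
    rw [hx, hx, hg]; exact hf3 _ _
  have h4 : ∀ k, ∀ (p : ℤ) (q : ℕ), dn n (x k) ≤ q → q ^ (w + 1) ≤ dn n (x (k + 1)) ^ 2 →
      2 / (q : ℝ) ^ w ≤ |rr n (x (k + 1)) - p / q| := fun k => by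
    rw [hx, hx, hg]; exact hf4 _ _
  have hmono : StrictMono x := strictMono_nat_of_lt_succ hlt
  -- denominators
  obtain ⟨R, hR⟩ : ∃ R : ℕ → ℕ, ∀ k, R k = dn n (x k) := ⟨_, fun _ => rfl⟩
  simp only [← hR] at h2 h3 h4
  have hR1 : ∀ k, 1 ≤ R k := fun k => by rw [hR]; exact (hB5 _).1
  have hRpos : ∀ k, (0 : ℝ) < R k := fun k => by exact_mod_cast hR1 k
  have hRstep : ∀ k, n * R k ≤ R (k + 1) := fun k => by
    rw [hR, hR]; exact hB6 _ _ (hlt k)
  have hRbig : ∀ k, k ≤ R k := by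
    intro k
    induction k with
    | zero => exact Nat.zero_le _
    | succ k ih =>
      have := hRstep k
      have := hR1 k
      nlinarith
  -- the upper envelope decreases
  have henv : ∀ k j, rr n (x (k + j)) + 1 / (3 * (R (k + j) : ℝ) ^ 2) ≤
      rr n (x k) + 1 / (3 * (R k : ℝ) ^ 2) := by
    intro k j
    induction j with
    | zero => exact le_rfl
    | succ j ih =>
      refine le_trans ?_ ih
      have e := h3 (k + j)
      have hr := hRpos (k + j)
      have h5 : ((n : ℝ) * R (k + j)) ≤ R (k + j + 1) := by exact_mod_cast hRstep (k + j)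
      have h6 : 1 / (3 * (R (k + j + 1) : ℝ) ^ 2) ≤ 1 / (12 * (R (k + j) : ℝ) ^ 2) := by
        apply one_div_le_one_div_of_le (by positivity)
        have hn2 : (2 : ℝ) ≤ n := by exact_mod_cast (by omega : 2 ≤ n)
        have h7 : 2 * (R (k + j) : ℝ) ≤ R (k + j + 1) :=
          le_trans (mul_le_mul_of_nonneg_right hn2 hr.le) h5
        nlinarith
      have h7 : 1 / (4 * (R (k + j) : ℝ) ^ 2) + 1 / (12 * (R (k + j) : ℝ) ^ 2) =
          1 / (3 * (R (k + j) : ℝ) ^ 2) := by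
        field_simp; norm_num
      have h8 : k + (j + 1) = k + j + 1 := by ring
      rw [h8]
      linarith
  have hub : ∀ k j, rr n (x j) ≤ rr n (x k) + 1 / (3 * (R k : ℝ) ^ 2) := by
    have hmr : Monotone fun j => rr n (x j) := monotone_nat_of_le_succ fun k => by
      have := h2 k
      have h0 : (0 : ℝ) ≤ 1 / (8 * (R k : ℝ) ^ 2) := by positivity
      linarith
    intro k j
    have h5 := henv k j
    have h6 : rr n (x j) ≤ rr n (x (k + j)) := hmr (Nat.le_add_left j k)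
    have h0 : (0 : ℝ) ≤ 1 / (3 * (R (k + j) : ℝ) ^ 2) := by positivity
    linarith
  have hbdd : BddAbove (Set.range fun j => rr n (x j)) := by
    refine ⟨rr n (x 0) + 1 / (3 * (R 0 : ℝ) ^ 2), ?_⟩
    rintro _ ⟨j, rfl⟩
    exact hub 0 j
  obtain ⟨ξ, hξ⟩ : ∃ ξ : ℝ, ξ = ⨆ j, rr n (x j) := ⟨_, rfl⟩
  have hξ1 : ∀ k, ξ ≤ rr n (x k) + 1 / (3 * (R k : ℝ) ^ 2) := fun k => by
    rw [hξ]; exact ciSup_le (hub k)
  have hξ2 : ∀ k, rr n (x k) ≤ ξ := fun k => by
    rw [hξ]; exact le_ciSup hbdd k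
  have hξ3 : ∀ k, rr n (x k) + 1 / (8 * (R k : ℝ) ^ 2) < ξ := fun k =>
    lt_of_lt_of_le (h2 k) (hξ2 (k + 1))
  refine ⟨ξ, x, hmono, ?_, w + 4, R 0 ^ 2 + 2, ?_⟩
  · intro k
    have hr := hRpos k
    have h5 := hξ3 k
    have h6 := hξ1 k
    have h7 : (0 : ℝ) < 1 / (8 * (R k : ℝ) ^ 2) := by positivity
    have h8 : 1 / (3 * (R k : ℝ) ^ 2) < 1 / (2 * (R k : ℝ) ^ 2) := by
      apply one_div_lt_one_div_of_lt (by positivity)
      have : (0 : ℝ) < (R k : ℝ) ^ 2 := by positivity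
      linarith
    rw [← hR]
    exact ⟨by linarith, by linarith⟩
  · intro p q hq
    have hq2 : 2 ≤ q := by omega
    have hqr : (2 : ℝ) ≤ q := by exact_mod_cast hq2
    have hq0 : (0 : ℝ) < q := by linarith
    -- the scale
    have hex : ∃ k, q ^ (w + 1) ≤ R k ^ 2 := by
      refine ⟨q ^ (w + 1), ?_⟩
      have h5 := hRbig (q ^ (w + 1))
      have h6 := hR1 (q ^ (w + 1))
      nlinarith
    classical
    obtain ⟨k, hk⟩ : ∃ k, Nat.find hex = k + 1 := by
      rcases hfi : Nat.find hex with _ | k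
      · exfalso
        have h5 := Nat.find_spec hex
        rw [hfi] at h5
        have h6 : q ≤ q ^ (w + 1) := Nat.le_self_pow (by omega) q
        omega
      · exact ⟨k, rfl⟩
    have hk1 : q ^ (w + 1) ≤ R (k + 1) ^ 2 := by
      have h5 := Nat.find_spec hex
      rwa [hk] at h5
    have hk0 : R k ^ 2 < q ^ (w + 1) := by
      have h5 := Nat.find_min hex (m := k) (by omega)
      omega
    have hk1' : (q : ℝ) ^ (w + 1) ≤ (R (k + 1) : ℝ) ^ 2 := by exact_mod_cast hk1
    have hk0' : (R k : ℝ) ^ 2 < (q : ℝ) ^ (w + 1) := by exact_mod_cast hk0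
    have hr := hRpos k
    have hr1 := hRpos (k + 1)
    have hqw : (0 : ℝ) < (q : ℝ) ^ w := by positivity
    by_cases hc : R k ≤ q
    · -- large q
      have h5 := h4 k p q hc hk1
      have h6 := hξ1 (k + 1)
      have h7 := hξ2 (k + 1)
      have h8 : |rr n (x (k + 1)) - p / q| ≤ |ξ - p / q| + 1 / (3 * (R (k + 1) : ℝ) ^ 2) := by
        have e1 : rr n (x (k + 1)) - p / q = (ξ - p / q) - (ξ - rr n (x (k + 1))) := by ring
        rw [e1]
        refine (abs_sub _ _).trans ?_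
        have e2 : |ξ - rr n (x (k + 1))| = ξ - rr n (x (k + 1)) := abs_of_nonneg (by linarith)
        rw [e2]
        linarith
      have h9 : 1 / (3 * (R (k + 1) : ℝ) ^ 2) ≤ 1 / (q : ℝ) ^ w := by
        apply one_div_le_one_div_of_le hqw
        have h10 : (q : ℝ) ^ (w + 1) = q ^ w * q := pow_succ _ _
        nlinarith
      have h10 : 2 / (q : ℝ) ^ w = 1 / (q : ℝ) ^ w + 1 / (q : ℝ) ^ w := by ring
      have h11 : 1 / (q : ℝ) ^ (w + 4) ≤ 1 / (q : ℝ) ^ w := by
        apply one_div_le_one_div_of_le hqw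
        exact pow_le_pow_right₀ (by linarith) (by omega)
      linarith
    · -- small q
      push Not at hc
      have hcr : (q : ℝ) < R k := by exact_mod_cast hc
      have hpow4 : (q : ℝ) ^ (w + 1) * 8 ≤ q ^ (w + 4) := by
        have e1 : (q : ℝ) ^ (w + 4) = q ^ (w + 1) * q ^ 3 := by rw [← pow_add]
        rw [e1]
        apply mul_le_mul_of_nonneg_left _ (by positivity)
        have : (2 : ℝ) ^ 3 ≤ (q : ℝ) ^ 3 := pow_le_pow_left₀ (by norm_num) hqr 3
        linarith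
      by_cases he : rr n (x k) = p / q
      · rw [← he]
        have h5 := hξ3 k
        have h6 : 1 / (8 * (R k : ℝ) ^ 2) ≤ |ξ - rr n (x k)| := by
          rw [abs_of_nonneg (by linarith [hξ2 k])]
          linarith
        refine le_trans ?_ h6
        apply one_div_le_one_div_of_le (by positivity)
        linarith
      · have hdiff : 1 / ((q : ℝ) * R k) ≤ |rr n (x k) - p / q| := by
          have e1 : rr n (x k) - p / q = ((nm n (x k) : ℝ) * q - p * R k) / (q * R k) := by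
            unfold rr
            rw [← hR]
            field_simp
          have e2 : ((nm n (x k) : ℝ) * q - p * R k) = (((nm n (x k) : ℤ) * q - p * R k : ℤ) : ℝ) := by
            push_cast; ring
          have e3 : ((nm n (x k) : ℤ) * q - p * R k : ℤ) ≠ 0 := by
            intro h0
            apply he
            have : rr n (x k) - p / q = 0 := by rw [e1, e2, h0]; simp
            linarith
          rw [e1, e2, abs_div, abs_of_pos (by positivity : (0 : ℝ) < q * R k)]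
          apply div_le_div_of_nonneg_right _ (by positivity)
          have := Int.one_le_abs e3
          exact_mod_cast this
        have h8 : |rr n (x k) - p / q| ≤ |ξ - p / q| + 1 / (3 * (R k : ℝ) ^ 2) := by
          have e1 : rr n (x k) - p / q = (ξ - p / q) - (ξ - rr n (x k)) := by ring
          rw [e1]
          refine (abs_sub _ _).trans ?_
          have e2 : |ξ - rr n (x k)| = ξ - rr n (x k) := abs_of_nonneg (by linarith [hξ2 k])
          rw [e2]
          linarith [hξ1 k]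
        have h9 : 1 / (3 * (R k : ℝ) ^ 2) ≤ 1 / (3 * ((q : ℝ) * R k)) := by
          apply one_div_le_one_div_of_le (by positivity)
          nlinarith
        have h10 : 1 / ((q : ℝ) * R k) - 1 / (3 * ((q : ℝ) * R k)) = 2 / (3 * (q * R k)) := by
          field_simp; norm_num
        have h11 : 1 / (q : ℝ) ^ (w + 4) ≤ 2 / (3 * (q * R k)) := by
          rw [div_le_div_iff₀ (by positivity) (by positivity), one_mul]
          have h12 : (q : ℝ) * R k ≤ R k ^ 2 := by nlinarith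
          nlinarith
        linarith

end Pool.Agent.Helper66.EM
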